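import Mathlib

/-!
# Ring `Q`-homeomorphisms with respect to `p`-module (MP_a2585e_an): definitions
-/

open MeasureTheory Set Filter Topology
open scoped NNReal ENNReal

namespace RQ

/-- Euclidean space `ℝⁿ`. -/
abbrev E (n : ℕ) := EuclideanSpace ℝ (Fin n)

/-- The line integral `∫_γ ρ ds` of a function `ρ ≥ 0` over the curve `γ : [0,1] → ℝⁿ`
(used for Lipschitz `γ` only). -/
noncomputable def lineInt {n : ℕ} (ρ : E n → ℝ≥0∞) (γ : ℝ → E n) : ℝ≥0∞ :=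
  ∫⁻ t in Icc (0 : ℝ) 1, ρ (γ t) * ‖deriv γ t‖ₑ

/-- `Δ(E₁, E₂, D)`: the rectifiable curves joining `E₁` and `E₂` in `D`, in a Lipschitz
parametrization on `[0,1]` (extended to `ℝ`). -/
def Joins {n : ℕ} (E₁ E₂ D : Set (E n)) : Set (ℝ → E n) :=
  {γ | (∃ K : ℝ≥0, LipschitzWith K γ) ∧ γ 0 ∈ E₁ ∧ γ 1 ∈ E₂ ∧ ∀ t ∈ Icc (0 : ℝ) 1, γ t ∈ D}

/-- `ρ` is admissible for the curve family `Γ`. -/
def Admissible {n : ℕ} (Γ : Set (ℝ → E n)) (ρ : E n → ℝ≥0∞) : Prop :=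
  Measurable ρ ∧ ∀ γ ∈ Γ, 1 ≤ lineInt ρ γ

/-- The `p`-module of a curve family. -/
noncomputable def pModule {n : ℕ} (p : ℝ) (Γ : Set (ℝ → E n)) : ℝ≥0∞ :=
  ⨅ (ρ : E n → ℝ≥0∞) (_ : Admissible Γ ρ), ∫⁻ x, ρ x ^ p

/-- `d₀ = dist(x₀, ∂G)` (`∞` if `G = ℝⁿ`). -/
noncomputable def d0 {n : ℕ} (G : Set (E n)) (x₀ : E n) : ℝ≥0∞ :=
  Metric.infEDist x₀ (frontier G)

/-- `f : G → ℝⁿ` is a ring `Q`-homeomorphism with respect to `p`-module at `x₀`; `G` is a domain,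
`f` is a homeomorphism of `G` onto an open set. -/
structure IsRingQ (n : ℕ) (p : ℝ) (G : Set (E n)) (x₀ : E n) (Q : E n → ℝ≥0∞) (f : E n → E n) :
    Prop where
  isOpen : IsOpen G
  conn : IsConnected G
  mem : x₀ ∈ G
  meas : Measurable Q
  homeo : ∃ e : OpenPartialHomeomorph (E n) (E n), e.source = G ∧ EqOn e f G
  ring : ∀ r₁ r₂ : ℝ, 0 < r₁ → r₁ < r₂ → ENNReal.ofReal r₂ < d0 G x₀ →
    ∀ η : ℝ → ℝ≥0∞, Measurable η → 1 ≤ ∫⁻ r in Ioo r₁ r₂, η r →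
    pModule p (Joins (f '' Metric.sphere x₀ r₁) (f '' Metric.sphere x₀ r₂) (f '' G)) ≤
      ∫⁻ x in {x | r₁ < dist x x₀ ∧ dist x x₀ < r₂}, Q x * (η (dist x x₀)) ^ p

/-- The `p`-energy `∫ |∇u|^p`. -/
noncomputable def energy {n : ℕ} (p : ℝ) (u : E n → ℝ) : ℝ≥0∞ :=
  ∫⁻ x, ‖fderiv ℝ u x‖ₑ ^ p

/-- Test functions: Lipschitz with compact support. -/
def IsTest {n : ℕ} (u : E n → ℝ) : Prop :=
  (∃ K : ℝ≥0, LipschitzWith K u) ∧ HasCompactSupport u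

/-- The `p`-capacity of a (compact) set. -/
noncomputable def pCap {n : ℕ} (p : ℝ) (A : Set (E n)) : ℝ≥0∞ :=
  ⨅ (u : E n → ℝ) (_ : IsTest u ∧ ∀ x ∈ A, 1 ≤ u x), energy p u

/-- `κ(n,p)`: the `p`-capacity of a segment of length one. -/
noncomputable def kappa (n : ℕ) (p : ℝ) : ℝ≥0∞ :=
  ⨅ (e : E n) (_ : ‖e‖ = 1), pCap p (segment ℝ (0 : E n) e)

/-- `ω_{n-1} = n Ω_n`, the area of the unit sphere of `ℝⁿ`. -/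
noncomputable def omega (n : ℕ) : ℝ := n * (volume (Metric.ball (0 : E n) 1)).toReal

/-- `Q_{x₀}`, the upper limit of the means of `Q` over balls. -/
noncomputable def Qlim {n : ℕ} (Q : E n → ℝ≥0∞) (x₀ : E n) : ℝ≥0∞ :=
  limsup (fun r : ℝ => (∫⁻ x in Metric.ball x₀ r, Q x) / volume (Metric.ball x₀ r)) (𝓝[>] 0)

/-- `L(x₀, f)`. -/
noncomputable def Llim {n : ℕ} (f : E n → E n) (x₀ : E n) : ℝ≥0∞ :=
  limsup (fun x => edist (f x) (f x₀) / edist x x₀) (𝓝[≠] x₀)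

/-- `‖Q‖_s` over the ball `B(x₀, δ)`, `δ ∈ [0,∞]`. -/
noncomputable def Qnorm {n : ℕ} (Q : E n → ℝ≥0∞) (s : ℝ) (x₀ : E n) (δ : ℝ≥0∞) : ℝ≥0∞ :=
  (∫⁻ x in {x | edist x x₀ < δ}, Q x ^ s) ^ (1 / s)

/-- Estimate (E1) with the norm of `Q` over the ball of radius `β d₀`. -/
def E1 (n : ℕ) (p : ℝ) (β : ℝ≥0∞ → ℝ≥0∞) (C : ℝ≥0∞) : Prop :=
  ∀ (G : Set (E n)) (x₀ : E n) (Q : E n → ℝ≥0∞) (f : E n → E n), IsRingQ n p G x₀ Q f →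
    ∀ x, x ≠ x₀ → edist x x₀ < min 1 (d0 G x₀ ^ 4) →
      edist (f x) (f x₀) ≤ C * Qnorm Q (n / (n - p)) x₀ (β (d0 G x₀)) ^ (1 / (n - p)) *
        ENNReal.ofReal (Real.log (1 / dist x x₀) ^ (-(p * (n - 1) / (n * (n - p)))))

/-- Estimate (E2) with the norm of `Q` over the ball of radius `β d₀`. -/
def E2 (n : ℕ) (p : ℝ) (β : ℝ≥0∞ → ℝ≥0∞) (C : ℝ≥0∞) : Prop :=
  ∀ (G : Set (E n)) (x₀ : E n) (Q : E n → ℝ≥0∞) (f : E n → E n), IsRingQ n p G x₀ Q f →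
    ∀ α : ℝ, n / (n - p) < α → ∀ x, x ≠ x₀ → edist x x₀ < d0 G x₀ / 4 →
      edist (f x) (f x₀) ≤ C * Qnorm Q α x₀ (β (d0 G x₀)) ^ (1 / (n - p)) *
        ENNReal.ofReal (dist x x₀ ^ (1 - n / (α * (n - p))))

/-- Estimate (E3). -/
def E3 (n : ℕ) (p : ℝ) (C : ℝ≥0∞) : Prop :=
  ∀ (G : Set (E n)) (x₀ : E n) (Q : E n → ℝ≥0∞) (f : E n → E n), IsRingQ n p G x₀ Q f →
    Qlim Q x₀ < ⊤ → Llim f x₀ ≤ C * Qlim Q x₀ ^ (1 / ((n : ℝ) - p))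

/-- The estimate `|f(x) - f(x₀)|^{n-p} ≤ A ‖Q‖_{L^α(B(x₀,R))}` for `|x - x₀| = r`,
`R ≤ dist(x₀, ∂G)`. -/
def E0 (n : ℕ) (p α r R : ℝ) (A : ℝ≥0∞) : Prop :=
  ∀ (G : Set (E n)) (x₀ : E n) (Q : E n → ℝ≥0∞) (f : E n → E n), IsRingQ n p G x₀ Q f →
    ENNReal.ofReal R ≤ d0 G x₀ → ∀ x, dist x x₀ = r →
      edist (f x) (f x₀) ^ ((n : ℝ) - p) ≤ A * Qnorm Q α x₀ (ENNReal.ofReal R)

end RQ
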