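import Pool.Agent.Helper28.RQ.Defs

/-!
# MP_a2585e_an: goals (one `Prop` per packet)
-/

open MeasureTheory Set Filter Topology
open scoped NNReal ENNReal RealInnerProductSpace

namespace RQ

/-! ## Constants -/

/-- `e(α) = (n-1)(α-1)/(1+α(p-1))`. -/
noncomputable def ex (n : ℕ) (p α : ℝ) : ℝ := ((n : ℝ) - 1) * (α - 1) / (1 + α * (p - 1))

/-- `K₀ = ω^{1-1/α} (∫_r^R t^{-e(α)} dt)^{-(p-1+1/α)}`. -/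
noncomputable def K0 (n : ℕ) (p α r R : ℝ) : ℝ :=
  omega n ^ (1 - 1 / α) * (∫ t in r..R, t ^ (-ex n p α)) ^ (-(p - 1 + 1 / α))

/-- `K₃ = ω (n/(n-1))^{n-p} (n(n-p)/(p(n-1)))^{p-1}`. -/
noncomputable def K3 (n : ℕ) (p : ℝ) : ℝ :=
  omega n * ((n : ℝ) / (n - 1)) ^ ((n : ℝ) - p) *
    ((n : ℝ) * (n - p) / (p * (n - 1))) ^ (p - 1)

/-- `K₁ = ω^{p/n} (4/3)^{p(n-1)/n}`. -/
noncomputable def K1 (n : ℕ) (p : ℝ) : ℝ :=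
  omega n ^ (p / n) * ((4 : ℝ) / 3) ^ (p * (n - 1) / n)

/-! ## Upper bounds -/

/-- TOP: topology of the images of balls. -/
def TOP : Prop := ∀ (n : ℕ) (p : ℝ) (G : Set (E n)) (x₀ : E n) (Q : E n → ℝ≥0∞) (f : E n → E n),
  1 ≤ n → IsRingQ n p G x₀ Q f →
    (∀ r : ℝ, Metric.closedBall x₀ r ⊆ G ↔ (r < 0 ∨ ENNReal.ofReal r < d0 G x₀)) ∧
    (∀ r : ℝ, 0 ≤ r → Metric.closedBall x₀ r ⊆ G →
      IsCompact (f '' Metric.closedBall x₀ r) ∧ IsConnected (f '' Metric.closedBall x₀ r) ∧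
      IsOpen (f '' Metric.ball x₀ r)) ∧ InjOn f G ∧ ContinuousOn f G

/-- SUB: the subcurve lemma. -/
def SUB : Prop := ∀ (n : ℕ) (p : ℝ) (G : Set (E n)) (x₀ : E n) (Q : E n → ℝ≥0∞) (f : E n → E n),
  1 ≤ n → IsRingQ n p G x₀ Q f → ∀ r R : ℝ, 0 < r → r < R → Metric.closedBall x₀ R ⊆ G →
  ∀ ρ : E n → ℝ≥0∞,
    Admissible (Joins (f '' Metric.sphere x₀ r) (f '' Metric.sphere x₀ R) (f '' G)) ρ →
  ∀ γ : ℝ → E n, (∃ K : ℝ≥0, LipschitzWith K γ) → γ 0 ∈ f '' Metric.closedBall x₀ r →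
    γ 1 ∉ f '' Metric.ball x₀ R → 1 ≤ lineInt ρ γ

/-- MOL: translation and smoothing of an admissible function. -/
def MOL : Prop := ∀ (n : ℕ) (p : ℝ), 1 < p → ∀ ρ : E n → ℝ≥0∞, Measurable ρ →
  ∫⁻ x, ρ x ^ p < ⊤ → ∀ (K O : Set (E n)) (ε : ℝ), 0 < ε →
  (∀ γ : ℝ → E n, (∃ L : ℝ≥0, LipschitzWith L γ) → γ 0 ∈ Metric.thickening ε K → γ 1 ∉ O →
    1 ≤ lineInt ρ γ) →
  ∃ ρ' : E n → ℝ, Continuous ρ' ∧ (∃ B, ∀ x, ρ' x ≤ B) ∧ (∀ x, 0 ≤ ρ' x) ∧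
    ∫⁻ x, ENNReal.ofReal (ρ' x) ^ p ≤ ∫⁻ x, ρ x ^ p ∧
    ∀ γ : ℝ → E n, (∃ L : ℝ≥0, LipschitzWith L γ) → γ 0 ∈ K → γ 1 ∉ Metric.thickening ε O →
      1 ≤ lineInt (fun x => ENNReal.ofReal (ρ' x)) γ

/-- POT: the potential of a continuous metric. -/
def POT : Prop := ∀ (n : ℕ) (ρ' : E n → ℝ), Continuous ρ' → (∃ B, ∀ x, ρ' x ≤ B) →
  (∀ x, 0 ≤ ρ' x) → ∀ K O : Set (E n),
  (∀ γ : ℝ → E n, (∃ L : ℝ≥0, LipschitzWith L γ) → γ 0 ∈ K → γ 1 ∉ O →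
    1 ≤ lineInt (fun x => ENNReal.ofReal (ρ' x)) γ) →
  ∃ u : E n → ℝ, (∃ L : ℝ≥0, LipschitzWith L u) ∧ (∀ x, 0 ≤ u x ∧ u x ≤ 1) ∧
    (∀ x ∈ K, u x = 1) ∧ (∀ x, x ∉ O → u x = 0) ∧ ∀ x, ‖fderiv ℝ u x‖ ≤ ρ' x

/-- The reflection in the hyperplane `⟪v, y⟫ = c` (`v` a unit vector). -/
noncomputable def refl {n : ℕ} (v : E n) (c : ℝ) (y : E n) : E n := y - (2 * (⟪v, y⟫ - c)) • v

open Classical in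
/-- The polarization (two-point rearrangement) of `u`. -/
noncomputable def polar {n : ℕ} (v : E n) (c : ℝ) (u : E n → ℝ) (y : E n) : ℝ :=
  if ⟪v, y⟫ ≤ c then max (u y) (u (refl v c y)) else min (u y) (u (refl v c y))

/-- LAT: the energy is modular. -/
def LAT : Prop := ∀ (n : ℕ) (p : ℝ) (u w : E n → ℝ), (∃ K : ℝ≥0, LipschitzWith K u) →
  (∃ K : ℝ≥0, LipschitzWith K w) →
  (∀ᵐ x, ‖fderiv ℝ (fun y => max (u y) (w y)) x‖ₑ ^ p + ‖fderiv ℝ (fun y => min (u y) (w y)) x‖ₑ ^ p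
      = ‖fderiv ℝ u x‖ₑ ^ p + ‖fderiv ℝ w x‖ₑ ^ p) ∧
  energy p (fun y => max (u y) (w y)) + energy p (fun y => min (u y) (w y)) =
    energy p u + energy p w

/-- POL: polarization does not increase the energy. -/
def POL : Prop := ∀ (n : ℕ) (p : ℝ) (v : E n), ‖v‖ = 1 → ∀ (c : ℝ) (u : E n → ℝ) (L : ℝ≥0),
  LipschitzWith L u → HasCompactSupport u → (∀ x, 0 ≤ u x) →
  LipschitzWith L (polar v c u) ∧ HasCompactSupport (polar v c u) ∧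
    (∀ x, 0 ≤ polar v c u x) ∧ energy p (polar v c u) ≤ energy p u

/-- TUBE: finitely many foldings bring a continuum into a thin tube around the segment. -/
def TUBE : Prop := ∀ (n : ℕ) (p : ℝ) (u : E n → ℝ) (L : ℝ≥0), LipschitzWith L u →
  HasCompactSupport u → (∀ x, 0 ≤ u x) → ∀ e : E n, ‖e‖ = 1 → ∀ K : Set (E n), IsCompact K →
  IsPreconnected K → (0 : E n) ∈ K → e ∈ K → (∀ x ∈ K, 1 ≤ u x) → ∀ δ : ℝ, 0 < δ →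
  ∃ u' : E n → ℝ, LipschitzWith L u' ∧ HasCompactSupport u' ∧ (∀ x, 0 ≤ u' x) ∧
    energy p u' ≤ energy p u ∧
    ∀ t ∈ Icc (0 : ℝ) 1, ∃ y : E n, ⟪e, y⟫ = t ∧ ‖y - t • e‖ ≤ δ ∧ 1 ≤ u' y

/-- SMO: smoothing of test functions. -/
def SMO : Prop := ∀ (n : ℕ) (p : ℝ), 1 ≤ p → ∀ u : E n → ℝ, IsTest u → ∀ η : ℝ, 0 < η →
  ∃ w : E n → ℝ, ContDiff ℝ 1 w ∧ HasCompactSupport w ∧ (∀ x, |w x - u x| ≤ η) ∧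
    energy p w ≤ energy p u

/-- MORREY: Morrey's inequality. -/
def MORREY : Prop := ∀ m : ℕ, 1 ≤ m → ∀ p : ℝ, (m : ℝ) < p → ∃ C : ℝ, 0 < C ∧
  ∀ w : E m → ℝ, ContDiff ℝ 1 w → HasCompactSupport w → ∀ δ : ℝ, 0 < δ → ∀ x y, ‖x - y‖ ≤ δ →
    |w x - w y| ≤ C * δ ^ (1 - (m : ℝ) / p) * (∫ z, ‖fderiv ℝ w z‖ ^ p) ^ (1 / p)

/-- SLICE: Morrey's inequality on the hyperplanes orthogonal to `e`. -/
def SLICE : Prop := ∀ n : ℕ, 2 ≤ n → ∀ p : ℝ, (n : ℝ) - 1 < p → ∃ C : ℝ, 0 < C ∧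
  ∀ w : E n → ℝ, ContDiff ℝ 1 w → HasCompactSupport w → ∀ e : E n, ‖e‖ = 1 →
  ∃ g : ℝ → ℝ, Measurable g ∧ (∀ t, 0 ≤ g t) ∧ ∫⁻ t, ENNReal.ofReal (g t) ^ p ≤ energy p w ∧
    ∀ δ : ℝ, 0 < δ → ∀ y : E n, ‖y - ⟪e, y⟫ • e‖ ≤ δ →
      |w y - w (⟪e, y⟫ • e)| ≤ C * δ ^ (1 - ((n : ℝ) - 1) / p) * g ⟪e, y⟫

/-- AVG: averages over translations. -/
def AVG : Prop := ∀ (n : ℕ) (p : ℝ), 1 ≤ p → ∀ w : E n → ℝ, ContDiff ℝ 1 w →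
  HasCompactSupport w → ∀ (e : E n) (h : ℝ), 0 < h →
  IsTest (fun x => (1 / h) * ∫ a in (0 : ℝ)..h, w (x + a • e)) ∧
    energy p (fun x => (1 / h) * ∫ a in (0 : ℝ)..h, w (x + a • e)) ≤ energy p w

/-- SEGSC: lower bound of the energy of a function which is large on a segment. -/
def SEGSC : Prop := ∀ (n : ℕ) (p : ℝ), 0 < p → ∀ v : E n → ℝ, IsTest v → ∀ a e : E n, ‖e‖ = 1 →
  ∀ ℓ c : ℝ, 0 < ℓ → 0 < c → (∀ t ∈ Icc (0 : ℝ) ℓ, c ≤ v (a + t • e)) →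
    kappa n p * ENNReal.ofReal (ℓ ^ ((n : ℝ) - p) * c ^ p) ≤ energy p v

/-- FOLD: the segment has the least capacity among the continua joining two points. -/
def FOLD : Prop := ∀ n : ℕ, 2 ≤ n → ∀ p : ℝ, (n : ℝ) - 1 < p → p < n → ∀ u : E n → ℝ, IsTest u →
  (∀ x, 0 ≤ u x) → ∀ K : Set (E n), IsCompact K → IsPreconnected K → ∀ a ∈ K, ∀ b ∈ K,
  (∀ x ∈ K, 1 ≤ u x) → kappa n p * edist a b ^ ((n : ℝ) - p) ≤ energy p u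

/-- POS: `κ > 0`. -/
def POS : Prop := ∀ n : ℕ, 2 ≤ n → ∀ p : ℝ, (n : ℝ) - 1 < p → p < n → 0 < kappa n p

/-- FIN: `κ < ∞`. -/
def FIN : Prop := ∀ n : ℕ, 2 ≤ n → ∀ p : ℝ, 0 < p → kappa n p < ⊤

/-- LOW: lower bound of the module of the image of a ring. -/
def LOW : Prop := ∀ n : ℕ, 2 ≤ n → ∀ p : ℝ, (n : ℝ) - 1 < p → p < n →
  ∀ (G : Set (E n)) (x₀ : E n) (Q : E n → ℝ≥0∞) (f : E n → E n), IsRingQ n p G x₀ Q f →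
  ∀ r R : ℝ, 0 < r → r < R → Metric.closedBall x₀ R ⊆ G → ∀ x, dist x x₀ < r →
    kappa n p * edist (f x) (f x₀) ^ ((n : ℝ) - p) ≤
      pModule p (Joins (f '' Metric.sphere x₀ r) (f '' Metric.sphere x₀ R) (f '' G))

/-- PC: polar coordinates. -/
def PC : Prop := ∀ n : ℕ, 1 ≤ n → ∀ F : ℝ → ℝ≥0∞, Measurable F →
  ∫⁻ x : E n, F ‖x‖ = ENNReal.ofReal (omega n) *
    ∫⁻ t in Ioi (0 : ℝ), ENNReal.ofReal (t ^ (n - 1)) * F t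

/-- UB0: the sharp two-radius inequality, upper bound. -/
def UB0 : Prop := ∀ n : ℕ, 2 ≤ n → ∀ p : ℝ, (n : ℝ) - 1 < p → p < n → ∀ α r R : ℝ, 1 < α →
  0 < r → r < R → ∀ (G : Set (E n)) (x₀ : E n) (Q : E n → ℝ≥0∞) (f : E n → E n),
  IsRingQ n p G x₀ Q f → ENNReal.ofReal R ≤ d0 G x₀ → ∀ x, dist x x₀ = r →
    kappa n p * edist (f x) (f x₀) ^ ((n : ℝ) - p) ≤
      ENNReal.ofReal (K0 n p α r R) * Qnorm Q α x₀ (ENNReal.ofReal R)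

/-- LAY: layer-cake estimate for nonincreasing radial weights. -/
def LAY : Prop := ∀ (n : ℕ) (Q : E n → ℝ≥0∞) (x₀ : E n) (R₀ : ℝ) (q : ℝ≥0∞), 1 ≤ n →
  Measurable Q → 0 < R₀ →
  (∀ t, 0 < t → t ≤ R₀ → ∫⁻ x in Metric.ball x₀ t, Q x ≤ q * volume (Metric.ball x₀ t)) →
  ∀ g : ℝ → ℝ, Measurable g → (∀ t, 0 ≤ g t) → AntitoneOn g (Ioo 0 R₀) →
    ∫⁻ x in Metric.ball x₀ R₀, Q x * ENNReal.ofReal (g (dist x x₀)) ≤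
      q * ∫⁻ x in Metric.ball x₀ R₀, ENNReal.ofReal (g (dist x x₀))

/-- UB3: upper bound in (E3). -/
def UB3 : Prop := ∀ n : ℕ, 2 ≤ n → ∀ p : ℝ, (n : ℝ) - 1 < p → p < n →
  ∀ (G : Set (E n)) (x₀ : E n) (Q : E n → ℝ≥0∞) (f : E n → E n), IsRingQ n p G x₀ Q f →
    Qlim Q x₀ < ⊤ →
    kappa n p * Llim f x₀ ^ ((n : ℝ) - p) ≤ ENNReal.ofReal (K3 n p) * Qlim Q x₀

/-! ## Near-extremal functions for the segment -/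

/-- ESC: scaling of the energy. -/
def ESC : Prop := ∀ (n : ℕ) (p : ℝ), 0 < p → ∀ (u : E n → ℝ) (c : ℝ), 0 < c →
  energy p (fun x => u (c • x)) = ENNReal.ofReal (c ^ (p - n)) * energy p u

/-- TRU: truncation. -/
def TRU : Prop := ∀ (n : ℕ) (p : ℝ), 0 < p → ∀ κ' : ℝ≥0∞, kappa n p < κ' →
  ∃ (e : E n) (u : E n → ℝ) (d : ℝ), ‖e‖ = 1 ∧ IsTest u ∧ (∀ x, 0 ≤ u x ∧ u x ≤ 1) ∧ 0 < d ∧
    (∀ x, Metric.infDist x (segment ℝ 0 e) ≤ d → u x = 1) ∧ energy p u < κ'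

/-- MAXL: near-minimizers which increase when contracted by the factor `lam`. -/
def MAXL : Prop := ∀ (n : ℕ) (p : ℝ), 1 ≤ n → 0 < p → p < n → ∀ κ' : ℝ≥0∞, kappa n p < κ' →
  ∀ lam : ℝ, 0 < lam → lam < 1 →
  ∃ (e : E n) (u : E n → ℝ) (d : ℝ), ‖e‖ = 1 ∧ IsTest u ∧ (∀ x, 0 ≤ u x ∧ u x ≤ 1) ∧ 0 < d ∧
    (∀ x, Metric.infDist x (segment ℝ 0 e) ≤ d → u x = 1) ∧ energy p u < κ' ∧
    ∀ x, u x ≤ u (lam • x)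

/-- AVR: averages over dilations. -/
def AVR : Prop := ∀ (n : ℕ) (p : ℝ), 1 ≤ p → p < n → ∀ u : E n → ℝ, IsTest u → ∀ Λ : ℝ, 0 < Λ →
  IsTest (fun x => (1 / Λ) * ∫ θ in (0 : ℝ)..Λ, u (Real.exp (-θ) • x)) ∧
    energy p (fun x => (1 / Λ) * ∫ θ in (0 : ℝ)..Λ, u (Real.exp (-θ) • x)) ≤
      ENNReal.ofReal (Real.exp (Λ * (n - p))) * energy p u

/-- RAD: radially nonincreasing near-minimizers. -/
def RAD : Prop := ∀ (n : ℕ) (p : ℝ), 1 ≤ n → 1 ≤ p → p < n → ∀ κ' : ℝ≥0∞, kappa n p < κ' →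
  ∃ (e : E n) (u : E n → ℝ) (d : ℝ), ‖e‖ = 1 ∧ IsTest u ∧ (∀ x, 0 ≤ u x ∧ u x ≤ 1) ∧ 0 < d ∧
    (∀ x, Metric.infDist x (segment ℝ 0 e) ≤ d → u x = 1) ∧ energy p u < κ' ∧
    ∀ x, ∀ s : ℝ, 1 ≤ s → u (s • x) ≤ u x

/-- NUL1: a Lipschitz function of one variable has derivative zero a.e. on the preimage of a
null set. -/
def NUL1 : Prop := ∀ (h : ℝ → ℝ), (∃ K : ℝ≥0, LipschitzWith K h) → ∀ S : Set ℝ, volume S = 0 →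
  ∀ᵐ t, h t ∈ S → deriv h t = 0

/-- NUL: the same in `ℝⁿ`. -/
def NUL : Prop := ∀ (n : ℕ) (u : E n → ℝ), (∃ K : ℝ≥0, LipschitzWith K u) → ∀ S : Set ℝ,
  volume S = 0 → ∀ᵐ x, u x ∈ S → fderiv ℝ u x = 0

/-- REP: reparametrization of the levels with bounded energy density. -/
def REP : Prop := ∀ (n : ℕ) (p : ℝ), 1 < p → ∀ u : E n → ℝ, (∃ K : ℝ≥0, LipschitzWith K u) →
  ∀ a b : ℝ, a < b → ∫⁻ x in u ⁻¹' Ioo a b, ‖fderiv ℝ u x‖ₑ ^ p < ⊤ → ∀ δ : ℝ≥0, 0 < δ →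
  ∃ ψ : ℝ → ℝ, StrictMono ψ ∧ (∃ K : ℝ≥0, LipschitzWith K ψ) ∧ (∀ s, s ∉ Ioo a b → ψ s = s) ∧
    ∀ S ⊆ Ioo a b, MeasurableSet S →
      ∫⁻ x in (ψ ∘ u) ⁻¹' S, ‖fderiv ℝ (ψ ∘ u) x‖ₑ ^ p ≤
        ((∫⁻ x in u ⁻¹' Ioo a b, ‖fderiv ℝ u x‖ₑ ^ p) / ENNReal.ofReal (b - a) + δ) * volume S

/-- Local Lipschitz continuity off the origin. -/
def LocLip {n : ℕ} (W : E n → ℝ) : Prop :=
  ∀ y, y ≠ 0 → ∃ K : ℝ≥0, ∃ U ∈ 𝓝 y, LipschitzOnWith K W U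

/-- The energy density of the height function. -/
noncomputable def Dens (n : ℕ) (p : ℝ) (κ' : ℝ≥0∞) (m : ℝ) (B : ℝ≥0∞) (s : ℝ) : ℝ≥0∞ :=
  if s ≤ 1 then κ' else if s ≤ 2 then B else
    ENNReal.ofReal (omega n * m ^ ((n : ℝ) - p) * Real.exp (-(((n : ℝ) - p) * (s - 2))))

/-- The properties of a (single scale) height function. -/
structure Height (n : ℕ) (p : ℝ) (κ' : ℝ≥0∞) (e : E n) (m M : ℝ) (B : ℝ≥0∞) (W : E n → ℝ) :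
    Prop where
  norm_e : ‖e‖ = 1
  m_pos : 0 < m
  m_lt : m < 1
  M_gt : 1 < M
  B_ne : B ≠ ⊤
  lip : LocLip W
  inner : ∀ y, 0 < ‖y‖ → ‖y‖ ≤ m → W y = 2 + Real.log (m / ‖y‖)
  outer : ∀ y, M ≤ ‖y‖ → W y = Real.log (M / ‖y‖)
  anti : ∀ y, y ≠ 0 → ∀ s : ℝ, 1 < s → W (s • y) < W y
  seg : 1 ≤ W e
  dens : ∀ S ⊆ Ioi (0 : ℝ), MeasurableSet S →
    ∫⁻ y in W ⁻¹' S, ‖fderiv ℝ W y‖ₑ ^ p ≤ ∫⁻ s in S, Dens n p κ' m B s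

/-- HU: the unnormalized height function on the ball `|y| < M`. -/
def HU : Prop := ∀ n : ℕ, 2 ≤ n → ∀ p : ℝ, 1 < p → p < n → ∀ κ' : ℝ≥0∞,
  kappa n p < κ' → ∀ m₁ : ℝ, 0 < m₁ →
  ∃ (e : E n) (m M : ℝ) (U : E n → ℝ), ‖e‖ = 1 ∧ 0 < m ∧ m < m₁ ∧ m < 1 ∧ 1 < M ∧
    (∃ K : ℝ≥0, LipschitzWith K U) ∧ (∀ y, ‖y‖ ≤ m → U y = 2) ∧ (∀ y, m < ‖y‖ → U y < 2) ∧
    (∀ y, ‖y‖ = M → U y = 0) ∧ (∀ y, M ≤ ‖y‖ → U y ≤ 0) ∧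
    (∀ y, m ≤ ‖y‖ → ∀ s : ℝ, 1 < s → U (s • y) < U y) ∧ 1 < U e ∧
    ∫⁻ y in U ⁻¹' Ioo 0 1, ‖fderiv ℝ U y‖ₑ ^ p < κ' ∧
    ∫⁻ y in U ⁻¹' Ioo 1 2, ‖fderiv ℝ U y‖ₑ ^ p < ⊤

/-- LW: existence of height functions. -/
def LW : Prop := ∀ n : ℕ, 2 ≤ n → ∀ p : ℝ, 1 < p → p < n → ∀ κ' : ℝ≥0∞,
  kappa n p < κ' → ∀ m₁ : ℝ, 0 < m₁ →
  ∃ (e : E n) (m M : ℝ) (B : ℝ≥0∞) (W : E n → ℝ), m < m₁ ∧ Height n p κ' e m M B W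

/-! ## The ring criterion -/

/-- AREA1: one-dimensional area inequality. -/
def AREA1 : Prop := ∀ (h : ℝ → ℝ), (∃ K : ℝ≥0, LipschitzWith K h) → ∀ a b : ℝ, a ≤ b →
  h b ≤ h a → ∀ g : ℝ → ℝ≥0∞, Measurable g →
    ∫⁻ s in Ioo (h b) (h a), g s ≤ ∫⁻ t in Icc a b, g (h t) * ‖deriv h t‖ₑ

/-- RCH: Rademacher's theorem off the origin. -/
def RCH : Prop := ∀ (n : ℕ), 1 ≤ n → ∀ W : E n → ℝ, LocLip W → ∀ᵐ y, DifferentiableAt ℝ W y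

/-- Hypotheses of the ring criterion: `W` is a height function on the ball `|y| < M`, `σ` the
profile on `(0, R)` with derivative `σ'` off a countable set `N`. -/
structure Crit (n : ℕ) (p M R : ℝ) (W : E n → ℝ) (σ σ' : ℝ → ℝ) (N : Set ℝ)
    (D q : ℝ → ℝ≥0∞) : Prop where
  M_pos : 0 < M
  R_pos : 0 < R
  lip : LocLip W
  bdry : ∀ y, ‖y‖ = M → W y = 0
  anti : ∀ y, y ≠ 0 → ∀ s : ℝ, 1 < s → W (s • y) < W y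
  pole : Tendsto W (𝓝[≠] 0) atTop
  santi : StrictAntiOn σ (Ioo 0 R)
  scont : ContinuousOn σ (Ioo 0 R)
  spole : Tendsto σ (𝓝[>] 0) atTop
  send : Tendsto σ (𝓝[<] R) (𝓝 0)
  N_count : N.Countable
  sder : ∀ t ∈ Ioo 0 R, t ∉ N → HasDerivAt σ (σ' t) t ∧ σ' t < 0
  D_meas : Measurable D
  q_meas : Measurable q
  dens : ∀ S ⊆ Ioi (0 : ℝ), MeasurableSet S →
    ∫⁻ y in W ⁻¹' S, ‖fderiv ℝ W y‖ₑ ^ p ≤ ∫⁻ s in S, D s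
  main : ∀ t ∈ Ioo 0 R, t ∉ N →
    D (σ t) ≤ ENNReal.ofReal (omega n * t ^ (n - 1) * (-σ' t) ^ (p - 1)) * q t

/-- The homeomorphism: `f(x) = y` iff `x = (t/|y|) y` with `σ(t) = W(y)`. -/
def IsMap {n : ℕ} (M R : ℝ) (W : E n → ℝ) (σ : ℝ → ℝ) (f : E n → E n) : Prop :=
  f 0 = 0 ∧ (∃ h : OpenPartialHomeomorph (E n) (E n), h.source = Metric.ball 0 R ∧
    h.target = Metric.ball 0 M ∧ EqOn h f (Metric.ball 0 R)) ∧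
  ∀ y : E n, 0 < ‖y‖ → ‖y‖ < M → ∀ t ∈ Ioo 0 R, σ t = W y → f ((t / ‖y‖) • y) = y

/-- RC1: the homeomorphism. -/
def RC1 : Prop := ∀ (n : ℕ) (p M R : ℝ) (W : E n → ℝ) (σ σ' : ℝ → ℝ) (N : Set ℝ)
  (D q : ℝ → ℝ≥0∞), 1 ≤ n → Crit n p M R W σ σ' N D q → ∃ f : E n → E n, IsMap M R W σ f

open Classical in
/-- The metric used for the ring inequality. -/
noncomputable def metr {n : ℕ} (W : E n → ℝ) (σ σ' : ℝ → ℝ) (N : Set ℝ) (r₁ r₂ : ℝ)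
    (η : ℝ → ℝ≥0∞) (φ : ℝ → ℝ) (y : E n) : ℝ≥0∞ :=
  if σ r₂ < W y ∧ W y < σ r₁ ∧ y ≠ 0 ∧ φ (W y) ∉ N then
    η (φ (W y)) * ENNReal.ofReal (1 / (-σ' (φ (W y)))) *
      (if DifferentiableAt ℝ W y then ‖fderiv ℝ W y‖ₑ else ⊤)
  else 0

/-- RC2: the metric is admissible.  (`φ` is the inverse function of `σ`.) -/
def RC2 : Prop := ∀ (n : ℕ) (p M R : ℝ) (W : E n → ℝ) (σ σ' : ℝ → ℝ) (N : Set ℝ)
  (D q : ℝ → ℝ≥0∞), 1 ≤ n → 1 < p → Crit n p M R W σ σ' N D q → Measurable σ' →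
  ∀ f : E n → E n, IsMap M R W σ f → ∀ φ : ℝ → ℝ, Measurable φ → (∀ t ∈ Ioo 0 R, φ (σ t) = t) →
  ∀ r₁ r₂ : ℝ, 0 < r₁ → r₁ < r₂ → r₂ < R → ∀ η : ℝ → ℝ≥0∞, Measurable η →
    1 ≤ ∫⁻ r in Ioo r₁ r₂, η r →
    Admissible (Joins (f '' Metric.sphere 0 r₁) (f '' Metric.sphere 0 r₂)
      (f '' Metric.ball 0 R)) (metr W σ σ' N r₁ r₂ η φ)

/-- RC3: the integral of the metric. -/
def RC3 : Prop := ∀ (n : ℕ) (p M R : ℝ) (W : E n → ℝ) (σ σ' : ℝ → ℝ) (N : Set ℝ)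
  (D q : ℝ → ℝ≥0∞), 1 ≤ n → 1 < p → Crit n p M R W σ σ' N D q → Measurable σ' →
  ∀ φ : ℝ → ℝ, Measurable φ → (∀ t ∈ Ioo 0 R, φ (σ t) = t) →
  ∀ r₁ r₂ : ℝ, 0 < r₁ → r₁ < r₂ → r₂ < R → ∀ η : ℝ → ℝ≥0∞, Measurable η →
    ∫⁻ y, metr W σ σ' N r₁ r₂ η φ y ^ p ≤
      ∫⁻ x in {x : E n | r₁ < dist x 0 ∧ dist x 0 < r₂}, q ‖x‖ * (η (dist x 0)) ^ p

/-- RC: the ring criterion. -/
def RC : Prop := ∀ (n : ℕ) (p M R : ℝ) (W : E n → ℝ) (σ σ' : ℝ → ℝ) (N : Set ℝ)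
  (D q : ℝ → ℝ≥0∞), 1 ≤ n → 1 < p → Crit n p M R W σ σ' N D q →
  ∃ f : E n → E n, IsMap M R W σ f ∧ IsRingQ n p (Metric.ball 0 R) 0 (fun x => q ‖x‖) f

/-! ## Extremal mappings -/

/-- LB0: sharpness of the two-radius inequality. -/
def LB0 : Prop := ∀ n : ℕ, 2 ≤ n → ∀ p : ℝ, (n : ℝ) - 1 < p → p < n → ∀ α r R : ℝ, 1 < α →
  0 < r → r < R → ∀ c : ℝ≥0∞, kappa n p / ENNReal.ofReal (K0 n p α r R) < c →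
  ∃ (Q : E n → ℝ≥0∞) (f : E n → E n) (x : E n), IsRingQ n p (Metric.ball 0 R) 0 Q f ∧
    ‖x‖ = r ∧ f 0 = 0 ∧ 1 ≤ ‖f x‖ ∧ Qnorm Q α 0 (ENNReal.ofReal R) ≤ c

/-- The density of the multi-scale height function. -/
noncomputable def DensPer (n : ℕ) (p : ℝ) (κ' : ℝ≥0∞) (m : ℝ) (B : ℝ≥0∞) (b P : ℝ) (s : ℝ) :
    ℝ≥0∞ :=
  ENNReal.ofReal (b ^ (((n : ℝ) - p) * ((⌈s / P⌉ : ℝ) - 1))) *
    Dens n p κ' m B (s - ((⌈s / P⌉ : ℝ) - 1) * P)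

/-- PER: the multi-scale height function. -/
def PER : Prop := ∀ (n : ℕ) (p : ℝ) (κ' : ℝ≥0∞) (e : E n) (m M : ℝ) (B : ℝ≥0∞) (W₀ : E n → ℝ),
  1 ≤ n → 1 < p → p < n → Height n p κ' e m M B W₀ → ∀ b : ℝ, 0 < b → b * M < m →
  ∃ W : E n → ℝ, LocLip W ∧ (∀ y, m ≤ ‖y‖ → W y = W₀ y) ∧
    (∀ y, b * M ≤ ‖y‖ → ‖y‖ ≤ m → W y = 2 + Real.log (m / ‖y‖)) ∧
    (∀ y, y ≠ 0 → ‖y‖ ≤ M → W (b • y) = W y + (2 + Real.log (m / (b * M)))) ∧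
    (∀ y, y ≠ 0 → ∀ s : ℝ, 1 < s → W (s • y) < W y) ∧
    (∀ S ⊆ Ioi (0 : ℝ), MeasurableSet S → ∫⁻ y in W ⁻¹' S, ‖fderiv ℝ W y‖ₑ ^ p ≤
      ∫⁻ s in S, DensPer n p κ' m B b (2 + Real.log (m / (b * M))) s)

/-- `t₁ = n/(n-1)`. -/
noncomputable def tOne (n : ℕ) : ℝ := (n : ℝ) / (n - 1)

/-- `γ = (n-p)/(p-1)`. -/
noncomputable def gam (n : ℕ) (p : ℝ) : ℝ := ((n : ℝ) - p) / (p - 1)

/-- `q₁ = (κ'/ω) (t₁^{-γ} (1/n + 1/γ) - R^{-γ}/γ)^{p-1}`. -/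
noncomputable def qOne (n : ℕ) (p : ℝ) (κ' R : ℝ) : ℝ :=
  κ' / omega n * (tOne n ^ (-gam n p) * (1 / n + 1 / gam n p) - R ^ (-gam n p) / gam n p) ^ (p - 1)

open Classical in
/-- The density `q` on the fundamental interval `[bR, R)`. -/
noncomputable def qBase (n : ℕ) (p κ' B m ε R t : ℝ) : ℝ :=
  if tOne n ≤ t then qOne n p κ' R
  else if 1 ≤ t then qOne n p κ' R * tOne n ^ (n - 1) / t ^ (n - 1)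
  else if 1 - ε ≤ t then B * ε ^ (p - 1) / (omega n * t ^ (n - 1))
  else (m / (1 - ε)) ^ ((n : ℝ) - p)

/-- PROF: the multi-scale profile. -/
def PROF : Prop := ∀ (n : ℕ) (p : ℝ) (κ' B m M ε b : ℝ), 2 ≤ n → 1 < p → p < n → 0 < κ' →
  0 < B → 0 < m → m < 1 → 1 < M → 0 < ε → ε < 1 / 2 → 0 < b → b * M < m → ∀ R : ℝ,
  R = (1 - ε) * M / m → tOne n < R →
  ∃ (σ σ' : ℝ → ℝ) (N : Set ℝ) (q : ℝ → ℝ), StrictAntiOn σ (Ioo 0 R) ∧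
    ContinuousOn σ (Ioo 0 R) ∧ Tendsto σ (𝓝[>] 0) atTop ∧ Tendsto σ (𝓝[<] R) (𝓝 0) ∧
    N.Countable ∧ (∀ t ∈ Ioo 0 R, t ∉ N → HasDerivAt σ (σ' t) t ∧ σ' t < 0) ∧ Measurable q ∧
    (∀ t, 0 ≤ q t) ∧
    (∀ t ∈ Ioo 0 R, t ∉ N →
      DensPer n p (ENNReal.ofReal κ') m (ENNReal.ofReal B) b (2 + Real.log (m / (b * M))) (σ t) ≤
        ENNReal.ofReal (omega n * t ^ (n - 1) * (-σ' t) ^ (p - 1)) * ENNReal.ofReal (q t)) ∧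
    (∀ k : ℕ, σ (b ^ k) = 1 + k * (2 + Real.log (m / (b * M)))) ∧
    (∀ t ∈ Ioo 0 R, q (b * t) = q t) ∧
    (∀ t ∈ Ico (b * R) R, q t = qBase n p κ' B m ε R t)

/-- QBD: the integrals of the base density over balls. -/
def QBD : Prop := ∀ (n : ℕ) (p : ℝ) (κ' B m M ε b : ℝ), 2 ≤ n → 1 < p → p < n → 0 < κ' →
  0 < B → 0 < m → m < 1 → 1 < M → 0 < ε → ε < 1 / 2 → 0 < b → b * M < m → ∀ R : ℝ,
  R = (1 - ε) * M / m → tOne n < R → ∀ T : ℝ, b * R ≤ T → T ≤ R →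
    ∫⁻ x in {x : E n | b * R ≤ ‖x‖ ∧ ‖x‖ < T}, ENNReal.ofReal (qBase n p κ' B m ε R ‖x‖) ≤
      ENNReal.ofReal ((m / (1 - ε)) ^ ((n : ℝ) - p) +
        (if T ≤ 1 / 2 then 0 else 2 ^ n * n * B * ε ^ p / omega n + qOne n p κ' R)) *
        volume (Metric.ball (0 : E n) T)

/-- QSC: scale invariant densities. -/
def QSC : Prop := ∀ (n : ℕ) (b R A lam : ℝ) (q : ℝ → ℝ), 1 ≤ n → 0 < b → b < 1 → 1 ≤ R →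
  0 ≤ A → 0 ≤ lam → Measurable q → (∀ t ∈ Ioo 0 R, q (b * t) = q t) →
  (∀ T, b * R ≤ T → T ≤ R →
    ∫⁻ x in {x : E n | b * R ≤ ‖x‖ ∧ ‖x‖ < T}, ENNReal.ofReal (q ‖x‖) ≤
      ENNReal.ofReal (lam + (if T ≤ 1 / 2 then 0 else A)) * volume (Metric.ball (0 : E n) T)) →
  Qlim (fun x : E n => ENNReal.ofReal (q ‖x‖)) 0 ≤
    ENNReal.ofReal ((lam + A) / (1 - b ^ n) * (1 + (2 * b * R) ^ n) + lam)

/-- LB3: sharpness in (E3). -/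
def LB3 : Prop := ∀ n : ℕ, 2 ≤ n → ∀ p : ℝ, (n : ℝ) - 1 < p → p < n → ∀ c : ℝ≥0∞,
  kappa n p / ENNReal.ofReal (K3 n p) < c →
  ∃ (R : ℝ) (Q : E n → ℝ≥0∞) (f : E n → E n), 0 < R ∧ IsRingQ n p (Metric.ball 0 R) 0 Q f ∧
    1 ≤ Llim f 0 ∧ Qlim Q 0 ≤ c

/-- LITB: mappings with small `Q` near `0` which are not small. -/
def LITB : Prop := ∀ n : ℕ, 2 ≤ n → ∀ p : ℝ, 1 < p → p < n → ∀ s R δ : ℝ, 0 < s → 0 < δ →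
  δ < R → ∀ c : ℝ≥0∞, 0 < c →
  ∃ (Q : E n → ℝ≥0∞) (f : E n → E n) (x : E n), IsRingQ n p (Metric.ball 0 R) 0 Q f ∧
    ‖x‖ < δ ∧ δ / 2 ≤ ‖x‖ ∧ f 0 = 0 ∧ 1 / 2 ≤ ‖f x‖ ∧ Qnorm Q s 0 (ENNReal.ofReal δ) ≤ c

/-! ## The final statements -/

/-- The optimal constant in the two-radius inequality. -/
def FIN0 : Prop := ∀ n : ℕ, 2 ≤ n → ∀ p : ℝ, (n : ℝ) - 1 < p → p < n → ∀ α r R : ℝ, 1 < α →
  0 < r → r < R →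
  E0 n p α r R (ENNReal.ofReal (K0 n p α r R) / kappa n p) ∧
  sInf {A | E0 n p α r R A} = ENNReal.ofReal (K0 n p α r R) / kappa n p

/-- The optimal constant in (E1) with the norm over `B(x₀, d₀)`. -/
def FIN1 : Prop := ∀ n : ℕ, 2 ≤ n → ∀ p : ℝ, (n : ℝ) - 1 < p → p < n →
  E1 n p id ((ENNReal.ofReal (K1 n p) / kappa n p) ^ (1 / ((n : ℝ) - p))) ∧
  sInf {C | E1 n p id C} = (ENNReal.ofReal (K1 n p) / kappa n p) ^ (1 / ((n : ℝ) - p))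

/-- The optimal constant in (E2) with the norm over `B(x₀, d₀)`. -/
def FIN2 : Prop := ∀ n : ℕ, 2 ≤ n → ∀ p : ℝ, (n : ℝ) - 1 < p → p < n →
  E2 n p id ((⨆ (α : ℝ) (_ : (n : ℝ) / (n - p) < α),
      ENNReal.ofReal (K0 n p α 1 4) / kappa n p) ^ (1 / ((n : ℝ) - p))) ∧
  sInf {C | E2 n p id C} = (⨆ (α : ℝ) (_ : (n : ℝ) / (n - p) < α),
      ENNReal.ofReal (K0 n p α 1 4) / kappa n p) ^ (1 / ((n : ℝ) - p))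

/-- The optimal constant in (E3). -/
def FIN3 : Prop := ∀ n : ℕ, 2 ≤ n → ∀ p : ℝ, (n : ℝ) - 1 < p → p < n →
  E3 n p ((ENNReal.ofReal (K3 n p) / kappa n p) ^ (1 / ((n : ℝ) - p))) ∧
  sInf {C | E3 n p C} = (ENNReal.ofReal (K3 n p) / kappa n p) ^ (1 / ((n : ℝ) - p))

/-- (E1), (E2) with the norm over `B(x₀, δᵢ)` fail for every finite constant. -/
def FINL : Prop := ∀ n : ℕ, 2 ≤ n → ∀ p : ℝ, (n : ℝ) - 1 < p → p < n →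
  (∀ C : ℝ≥0∞, C ≠ ⊤ → ¬ E1 n p (fun d => min 1 (d ^ 4)) C) ∧
  (∀ C : ℝ≥0∞, C ≠ ⊤ → ¬ E2 n p (fun d => d / 4) C)

end RQ
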